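import Mathlib

/-! # Alternating sums of binomials over integers and harmonic numbers modulo `p` (helper21) -/

namespace Pool.Agent.Lib.MP_748296_nt.H21

open Finset

/-- harmonic numbers in a field -/
noncomputable def Hm (K : Type*) [Field K] (m : ℕ) : K := ∑ i ∈ range m, ((i : K) + 1)⁻¹

/-- `∑_{l<m} (-1)^l binom(M,m-1-l)/(l+1)` -/
noncomputable def Fs (K : Type*) [Field K] (M m : ℕ) : K :=
  ∑ l ∈ range m, (-1) ^ l * (Nat.choose M (m - 1 - l) : K) * ((l : K) + 1)⁻¹

variable {K : Type*} [Field K]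

lemma Hm_succ (m : ℕ) : Hm K (m + 1) = Hm K m + ((m : K) + 1)⁻¹ := by
  rw [Hm, Hm, sum_range_succ]

lemma Fs_pascal (M m : ℕ) : Fs K (M + 1) (m + 1) = Fs K M (m + 1) + Fs K M m := by
  rw [Fs, Fs, Fs, sum_range_succ, sum_range_succ, add_right_comm, ← sum_add_distrib]
  congr 1
  · apply sum_congr rfl
    intro l hl
    rw [mem_range] at hl
    have h1 : m + 1 - 1 - l = (m - 1 - l) + 1 := by omega
    rw [h1, Nat.choose_succ_succ]
    push_cast
    ring
  · have h1 : m + 1 - 1 - m = 0 := by omega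
    rw [h1, Nat.choose_zero_right, Nat.choose_zero_right]

lemma alt_choose (M : ℕ) : ∑ l ∈ range (M + 1), (-1 : K) ^ l * (Nat.choose (M + 1) (l + 1) : K) = 1 := by
  have h := Int.alternating_sum_range_choose (n := M + 1)
  rw [if_neg (Nat.succ_ne_zero M), sum_range_succ'] at h
  have h2 : ((∑ k ∈ range (M + 1), (-1 : ℤ) ^ (k + 1) * (Nat.choose (M + 1) (k + 1) : ℤ) +
    (-1) ^ 0 * (Nat.choose (M + 1) 0 : ℤ) : ℤ) : K) = 0 := by rw [h]; simp
  push_cast at h2
  rw [Nat.choose_zero_right] at h2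
  have h3 : ∑ k ∈ range (M + 1), (-1 : K) ^ (k + 1) * (Nat.choose (M + 1) (k + 1) : K) =
      - ∑ l ∈ range (M + 1), (-1 : K) ^ l * (Nat.choose (M + 1) (l + 1) : K) := by
    rw [← sum_neg_distrib]
    apply sum_congr rfl
    intro l _
    ring
  rw [h3] at h2
  push_cast at h2
  linear_combination -h2

lemma Fs_top (M : ℕ) (h : ∀ i : ℕ, 1 ≤ i → i ≤ M + 1 → (i : K) ≠ 0) :
    Fs K M (M + 1) = ((M : K) + 1)⁻¹ := by
  have hM : ((M : K) + 1) ≠ 0 := by
    have := h (M + 1) (by omega) le_rfl
    push_cast at this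
    exact this
  have e : Fs K M (M + 1) = ((M : K) + 1)⁻¹ *
      ∑ l ∈ range (M + 1), (-1 : K) ^ l * (Nat.choose (M + 1) (l + 1) : K) := by
    rw [Fs, mul_sum]
    apply sum_congr rfl
    intro l hl
    rw [mem_range] at hl
    have hl1 : ((l : K) + 1) ≠ 0 := by
      have := h (l + 1) (by omega) (by omega)
      push_cast at this
      exact this
    have h1 : M + 1 - 1 - l = M - l := by omega
    rw [h1, Nat.choose_symm (by omega)]
    have h2 : (M + 1) * Nat.choose M l = Nat.choose (M + 1) (l + 1) * (l + 1) :=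
      Nat.add_one_mul_choose_eq M l
    have h3 : ((M : K) + 1) * (Nat.choose M l : K) = (Nat.choose (M + 1) (l + 1) : K) * ((l : K) + 1) := by
      exact_mod_cast congrArg (Nat.cast : ℕ → K) h2
    field_simp
    linear_combination h3
  rw [e, alt_choose, mul_one]

lemma Fs_eq (M : ℕ) : (∀ i : ℕ, 1 ≤ i → i ≤ M → (i : K) ≠ 0) → ∀ m ≤ M,
    Fs K M m = (Nat.choose M m : K) * (Hm K M - Hm K (M - m)) := by
  induction M with
  | zero =>
    intro _ m hm
    have : m = 0 := by omega
    subst this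
    simp [Fs, Hm]
  | succ M ih =>
    intro h m hm
    have hM : ((M : K) + 1) ≠ 0 := by
      have := h (M + 1) (by omega) le_rfl
      push_cast at this
      exact this
    have ih' := ih (fun i h1 h2 => h i h1 (by omega))
    rcases Nat.eq_zero_or_pos m with rfl | hm0
    · simp [Fs]
    obtain ⟨m, rfl⟩ : ∃ m', m = m' + 1 := ⟨m - 1, by omega⟩
    rw [Fs_pascal]
    rcases Nat.lt_or_ge m M with hlt | hge
    · obtain ⟨r, rfl⟩ : ∃ r, M = m + 1 + r := ⟨M - (m + 1), by omega⟩
      rw [ih' (m + 1) (by omega), ih' m (by omega)]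
      have e1 : m + 1 + r - (m + 1) = r := by omega
      have e2 : m + 1 + r - m = r + 1 := by omega
      have e3 : m + 1 + r + 1 - (m + 1) = r + 1 := by omega
      rw [e1, e2, e3, Hm_succ (m + 1 + r), Hm_succ r]
      have hr1 : ((r : K) + 1) ≠ 0 := by
        have := h (r + 1) (by omega) (by omega)
        push_cast at this
        exact this
      have hm1 : ((m : K) + 1) ≠ 0 := by
        have := h (m + 1) (by omega) (by omega)
        push_cast at this
        exact this
      have c1 : Nat.choose (m + 1 + r + 1) (m + 1) = Nat.choose (m + 1 + r) m + Nat.choose (m + 1 + r) (m + 1) :=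
        Nat.choose_succ_succ _ _
      have c2 : Nat.choose (m + 1 + r) (m + 1) * (m + 1) = Nat.choose (m + 1 + r) m * (m + 1 + r - m) :=
        Nat.choose_succ_right_eq _ _
      rw [e2] at c2
      have c3 : ((m + 1 + r) + 1) * Nat.choose (m + 1 + r) m = Nat.choose (m + 1 + r + 1) (m + 1) * (m + 1) :=
        Nat.add_one_mul_choose_eq _ _
      have d1 : (Nat.choose (m + 1 + r + 1) (m + 1) : K) =
        (Nat.choose (m + 1 + r) m : K) + (Nat.choose (m + 1 + r) (m + 1) : K) := by exact_mod_cast congrArg (Nat.cast : ℕ → K) c1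
      have d2 : (Nat.choose (m + 1 + r) (m + 1) : K) * ((m : K) + 1) = (Nat.choose (m + 1 + r) m : K) * ((r : K) + 1) := by
        exact_mod_cast congrArg (Nat.cast : ℕ → K) c2
      have d3 : (((m + 1 + r : ℕ) : K) + 1) * (Nat.choose (m + 1 + r) m : K) = (Nat.choose (m + 1 + r + 1) (m + 1) : K) * ((m : K) + 1) := by
        exact_mod_cast congrArg (Nat.cast : ℕ → K) c3
      have f1 : (Nat.choose (m + 1 + r) (m + 1) : K) * ((r : K) + 1)⁻¹ = (Nat.choose (m + 1 + r) m : K) * ((m : K) + 1)⁻¹ := by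
        field_simp
        linear_combination d2
      have f2 : (Nat.choose (m + 1 + r + 1) (m + 1) : K) * (((m + 1 + r : ℕ) : K) + 1)⁻¹ =
          (Nat.choose (m + 1 + r) m : K) * ((m : K) + 1)⁻¹ := by
        field_simp
        linear_combination -d3
      linear_combination f1 - f2 - (Hm K (m + 1 + r) - Hm K r - ((r : K) + 1)⁻¹) * d1
    · have : m = M := by omega
      subst this
      rw [Fs_top m h, ih' m le_rfl, Nat.choose_self, Nat.choose_self, Nat.sub_self, Nat.sub_self,
        Hm_succ]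
      simp [Hm]
      ring

end Pool.Agent.Lib.MP_748296_nt.H21
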