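import Mathlib
import Pool.Agent.Lib.MP_748296_nt.H21.Harm

/-! # The correction sum modulo `p` (helper21) -/

namespace Pool.Agent.Lib.MP_748296_nt.H21

open Finset

section
variable (p n : ℕ) [hp : Fact p.Prime] (hn : p = 3 * n + 1)

include hn in
lemma n_pos : 0 < n := by
  rcases Nat.eq_zero_or_pos n with h | h
  · subst h; have := hp.out.one_lt; omega
  · exact h

include hn in
lemma n_even (h2 : p ≠ 2) : Even n := by
  rcases Nat.even_or_odd n with h | h
  · exact h
  · exfalso
    have h3 : Even p := by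
      obtain ⟨k, hk⟩ := h
      exact ⟨3 * k + 2, by omega⟩
    exact h2 ((Nat.Prime.even_iff hp.out).mp h3)

include hn in
lemma three_n : (3 : ZMod p) * (n : ZMod p) = -1 := by
  have h : ((p : ℕ) : ZMod p) = 0 := ZMod.natCast_self p
  have h2 : ((3 * n + 1 : ℕ) : ZMod p) = 0 := by rw [← hn]; exact h
  push_cast at h2
  linear_combination h2

lemma cast_ne_zero (i : ℕ) (h1 : 1 ≤ i) (h2 : i < p) : (i : ZMod p) ≠ 0 := by
  intro h
  rw [ZMod.natCast_eq_zero_iff] at h
  exact absurd (Nat.le_of_dvd (by omega) h) (by omega)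

/-- power sums over `ZMod p` -/
lemma pow_sum (e : ℕ) (he : 0 < e) :
    ∑ x : ZMod p, x ^ e = if (p - 1) ∣ e then -1 else 0 := by
  classical
  have h := FiniteField.sum_pow_units (ZMod p) e
  rw [ZMod.card] at h
  rw [← h]
  symm
  apply Fintype.sum_of_injective (fun u : (ZMod p)ˣ => (u : ZMod p)) Units.val_injective
  · intro x hx
    have hx0 : x = 0 := by
      by_contra hne
      exact hx ⟨Units.mk0 x hne, rfl⟩
    subst hx0
    exact zero_pow (by omega)
  · intro u
    rfl

include hn in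
lemma Hm_two_n (h2 : p ≠ 2) : Hm (ZMod p) (2 * n) = Hm (ZMod p) n := by
  have h3n := three_n p n hn
  have hfull : Hm (ZMod p) (3 * n) = 0 := by
    have e : Hm (ZMod p) (3 * n) = - Hm (ZMod p) (3 * n) := by
      rw [Hm]
      nth_rewrite 1 [← sum_range_reflect]
      rw [← sum_neg_distrib]
      apply sum_congr rfl
      intro i hi
      rw [mem_range] at hi
      rw [← inv_neg]
      congr 1
      have : ((3 * n - 1 - i : ℕ) : ZMod p) + 1 + ((i : ZMod p) + 1) = 0 := by
        have h : (((3 * n - 1 - i) + 1 + (i + 1) : ℕ) : ZMod p) = 0 := by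
          have : (3 * n - 1 - i) + 1 + (i + 1) = p := by omega
          rw [this]; exact ZMod.natCast_self p
        push_cast at h
        exact h
      linear_combination this
    have h4 : (2 : ZMod p) * Hm (ZMod p) (3 * n) = 0 := by linear_combination e
    rcases mul_eq_zero.mp h4 with h | h
    · exfalso
      have := cast_ne_zero p 2 (by omega) (by have := hp.out.two_le; omega)
      exact this (by exact_mod_cast h)
    · exact h
  have hsplit : Hm (ZMod p) (3 * n) = Hm (ZMod p) (2 * n) - Hm (ZMod p) n := by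
    have e3 : 3 * n = 2 * n + n := by omega
    rw [Hm, Hm, Hm]
    nth_rewrite 1 [e3]
    rw [sum_range_add, sub_eq_add_neg, add_right_inj, ← sum_neg_distrib]
    nth_rewrite 1 [← sum_range_reflect]
    apply sum_congr rfl
    intro i hi
    rw [mem_range] at hi
    rw [← inv_neg]
    congr 1
    have h : (((2 * n + (n - 1 - i)) + 1 + (i + 1) : ℕ) : ZMod p) = 0 := by
      have : (2 * n + (n - 1 - i)) + 1 + (i + 1) = p := by omega
      rw [this]; exact ZMod.natCast_self p
    push_cast at h
    push_cast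
    linear_combination h
  rw [hfull] at hsplit
  linear_combination -hsplit

/-- `W = ∑_x x^{2n} (1-x)^{2n-1} ∑_{k=1}^{p-1} x^k/k`. -/
noncomputable def W : ZMod p :=
  ∑ x : ZMod p, x ^ (2 * n) * (1 - x) ^ (2 * n - 1) *
    ∑ k ∈ range (3 * n), ((k : ZMod p) + 1)⁻¹ * x ^ (k + 1)

include hn in
lemma inner (l : ℕ) (hl : l < 2 * n) :
    ∑ x : ZMod p, x ^ (2 * n) * (x ^ l * ∑ k ∈ range (3 * n), ((k : ZMod p) + 1)⁻¹ * x ^ (k + 1)) =
      if l < n then -((n : ZMod p) - l)⁻¹ else -((n : ZMod p) - (2 * n - 1 - l : ℕ))⁻¹ * (-1) := by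
  have hnp := n_pos p n hn
  have e1 : ∑ x : ZMod p, x ^ (2 * n) * (x ^ l * ∑ k ∈ range (3 * n), ((k : ZMod p) + 1)⁻¹ * x ^ (k + 1)) =
      ∑ k ∈ range (3 * n), ((k : ZMod p) + 1)⁻¹ * (if 3 * n ∣ (2 * n + l + (k + 1)) then -1 else 0) := by
    have : ∀ x : ZMod p, x ^ (2 * n) * (x ^ l * ∑ k ∈ range (3 * n), ((k : ZMod p) + 1)⁻¹ * x ^ (k + 1)) =
        ∑ k ∈ range (3 * n), ((k : ZMod p) + 1)⁻¹ * x ^ (2 * n + l + (k + 1)) := by
      intro x
      rw [mul_sum, mul_sum]
      apply sum_congr rfl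
      intro k _
      rw [pow_add, pow_add]
      ring
    simp_rw [this]
    rw [sum_comm]
    apply sum_congr rfl
    intro k _
    rw [← mul_sum, pow_sum p _ (by omega)]
    have : p - 1 = 3 * n := by omega
    rw [this]
  rw [e1]
  have h3n := three_n p n hn
  split_ifs with hln
  · rw [sum_eq_single (n - l - 1)]
    · have hd : 3 * n ∣ 2 * n + l + (n - l - 1 + 1) := ⟨1, by omega⟩
      rw [if_pos hd]
      have : ((n - l - 1 : ℕ) : ZMod p) + 1 = (n : ZMod p) - l := by
        have h : ((n - l - 1 + 1 + l : ℕ) : ZMod p) = (n : ZMod p) := by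
          congr 1; omega
        push_cast at h
        linear_combination h
      rw [this]; ring
    · intro k hk hne
      rw [mem_range] at hk
      rw [if_neg, mul_zero]
      rintro ⟨c, hc⟩
      have hc1 : c < 2 := by
        by_contra hcc
        have : 3 * n * 2 ≤ 3 * n * c := Nat.mul_le_mul_left _ (by omega)
        omega
      have : c = 0 ∨ c = 1 := by omega
      rcases this with rfl | rfl <;> omega
    · intro h
      rw [mem_range] at h
      omega
  · rw [sum_eq_single (4 * n - l - 1)]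
    · have hd : 3 * n ∣ 2 * n + l + (4 * n - l - 1 + 1) := ⟨2, by omega⟩
      rw [if_pos hd]
      have h1 : ((4 * n - l - 1 : ℕ) : ZMod p) + 1 = 4 * (n : ZMod p) - l := by
        have h : ((4 * n - l - 1 + 1 + l : ℕ) : ZMod p) = ((4 * n : ℕ) : ZMod p) := by
          congr 1; omega
        push_cast at h
        linear_combination h
      have h2 : ((2 * n - 1 - l : ℕ) : ZMod p) = 2 * (n : ZMod p) - 1 - l := by
        have h : ((2 * n - 1 - l + 1 + l : ℕ) : ZMod p) = ((2 * n : ℕ) : ZMod p) := by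
          congr 1; omega
        push_cast at h
        linear_combination h
      rw [h1, h2]
      have h4 : (n : ZMod p) - (2 * n - 1 - l) = -(4 * (n : ZMod p) - l) := by
        linear_combination h3n
      rw [h4, inv_neg]
      ring
    · intro k hk hne
      rw [mem_range] at hk
      rw [if_neg, mul_zero]
      rintro ⟨c, hc⟩
      have hc1 : c < 3 := by
        by_contra hcc
        have : 3 * n * 3 ≤ 3 * n * c := Nat.mul_le_mul_left _ (by omega)
        omega
      have : c = 0 ∨ c = 1 ∨ c = 2 := by omega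
      rcases this with rfl | rfl | rfl <;> omega
    · intro h
      rw [mem_range] at h
      omega

include hn in
theorem W_eq (h2 : p ≠ 2) : 2 * (n : ZMod p) * W p n = (Nat.choose (2 * n) n : ZMod p) := by
  have hnp := n_pos p n hn
  have hev := n_even p n hn h2
  have h3n := three_n p n hn
  have step1 : W p n = ∑ l ∈ range (2 * n), (-1) ^ l * (Nat.choose (2 * n - 1) l : ZMod p) *
      (if l < n then -((n : ZMod p) - l)⁻¹ else -((n : ZMod p) - (2 * n - 1 - l : ℕ))⁻¹ * (-1)) := by
    rw [W]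
    have : ∀ x : ZMod p, x ^ (2 * n) * (1 - x) ^ (2 * n - 1) *
        ∑ k ∈ range (3 * n), ((k : ZMod p) + 1)⁻¹ * x ^ (k + 1) =
        ∑ l ∈ range (2 * n), (-1) ^ l * (Nat.choose (2 * n - 1) l : ZMod p) *
          (x ^ (2 * n) * (x ^ l * ∑ k ∈ range (3 * n), ((k : ZMod p) + 1)⁻¹ * x ^ (k + 1))) := by
      intro x
      have hb : (1 - x) ^ (2 * n - 1) = ∑ l ∈ range (2 * n), (-1) ^ l * (Nat.choose (2 * n - 1) l : ZMod p) * x ^ l := by
        have : (1 - x) = (-x) + 1 := by ring
        rw [this, add_pow]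
        have e : 2 * n - 1 + 1 = 2 * n := by omega
        rw [e]
        apply sum_congr rfl
        intro l _
        rw [one_pow, neg_pow]
        ring
      rw [hb]
      generalize (∑ k ∈ range (3 * n), ((k : ZMod p) + 1)⁻¹ * x ^ (k + 1)) = S
      rw [mul_sum, sum_mul]
      apply sum_congr rfl
      intro l _
      ring
    simp_rw [this]
    rw [sum_comm]
    apply sum_congr rfl
    intro l hl
    rw [mem_range] at hl
    rw [← mul_sum, inner p n hn l hl]
  have step2 : W p n = -2 * ∑ l ∈ range n, (-1) ^ l * (Nat.choose (2 * n - 1) l : ZMod p) * ((n : ZMod p) - l)⁻¹ := by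
    rw [step1]
    have e2 : 2 * n = n + n := by omega
    nth_rewrite 1 [e2]
    rw [sum_range_add]
    have ea : ∑ l ∈ range n, (-1) ^ l * (Nat.choose (2 * n - 1) l : ZMod p) *
      (if l < n then -((n : ZMod p) - l)⁻¹ else -((n : ZMod p) - (2 * n - 1 - l : ℕ))⁻¹ * (-1)) =
      - ∑ l ∈ range n, (-1) ^ l * (Nat.choose (2 * n - 1) l : ZMod p) * ((n : ZMod p) - l)⁻¹ := by
      rw [← sum_neg_distrib]
      apply sum_congr rfl
      intro l hl
      rw [mem_range] at hl
      rw [if_pos hl]
      ring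
    have eb : ∑ l ∈ range n, (-1) ^ (n + l) * (Nat.choose (2 * n - 1) (n + l) : ZMod p) *
      (if n + l < n then -((n : ZMod p) - (n + l : ℕ))⁻¹ else -((n : ZMod p) - (2 * n - 1 - (n + l) : ℕ))⁻¹ * (-1)) =
      - ∑ l ∈ range n, (-1) ^ l * (Nat.choose (2 * n - 1) l : ZMod p) * ((n : ZMod p) - l)⁻¹ := by
      rw [← sum_neg_distrib]
      nth_rewrite 1 [← sum_range_reflect]
      apply sum_congr rfl
      intro l hl
      rw [mem_range] at hl
      rw [if_neg (by omega)]
      have h1 : 2 * n - 1 - (n + (n - 1 - l)) = l := by omega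
      have h2 : n + (n - 1 - l) = 2 * n - 1 - l := by omega
      rw [h1, h2, Nat.choose_symm (by omega)]
      have hs : (-1 : ZMod p) ^ (2 * n - 1 - l) = - (-1) ^ l := by
        have hodd : Odd (2 * n - 1 - l + l) := ⟨n - 1, by omega⟩
        have := hodd.neg_one_pow (α := ZMod p)
        rw [pow_add] at this
        have h5 : ((-1 : ZMod p) ^ l) * ((-1 : ZMod p) ^ l) = 1 := by
          rw [← mul_pow]; simp
        calc (-1 : ZMod p) ^ (2 * n - 1 - l) = ((-1) ^ (2 * n - 1 - l) * (-1) ^ l) * (-1) ^ l := by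
              rw [mul_assoc, h5, mul_one]
          _ = - (-1) ^ l := by rw [this]; ring
      rw [hs]
      ring
    rw [ea, eb]
    ring
  have step3 : W p n = 2 * Fs (ZMod p) (2 * n - 1) n := by
    rw [step2, Fs]
    nth_rewrite 1 [← sum_range_reflect]
    rw [neg_mul, ← mul_neg, ← sum_neg_distrib]
    congr 1
    apply sum_congr rfl
    intro l hl
    rw [mem_range] at hl
    have h1 : (n : ZMod p) - (n - 1 - l : ℕ) = (l : ZMod p) + 1 := by
      have h : (((n - 1 - l) + 1 + l : ℕ) : ZMod p) = (n : ZMod p) := by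
        congr 1; omega
      push_cast at h
      linear_combination -h
    rw [h1]
    have hs : (-1 : ZMod p) ^ (n - 1 - l) = - (-1) ^ l := by
      have hodd : Odd (n - 1 - l + l) := by
        obtain ⟨k, hk⟩ := hev
        exact ⟨k - 1, by omega⟩
      have := hodd.neg_one_pow (α := ZMod p)
      rw [pow_add] at this
      have h5 : ((-1 : ZMod p) ^ l) * ((-1 : ZMod p) ^ l) = 1 := by
        rw [← mul_pow]; simp
      calc (-1 : ZMod p) ^ (n - 1 - l) = ((-1) ^ (n - 1 - l) * (-1) ^ l) * (-1) ^ l := by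
            rw [mul_assoc, h5, mul_one]
        _ = - (-1) ^ l := by rw [this]; ring
    rw [hs]
    ring
  have hFs := Fs_eq (K := ZMod p) (2 * n - 1) (fun i h1 h2 => cast_ne_zero p i h1 (by omega)) n (by omega)
  have e0 : 2 * n - 1 - n = n - 1 := by omega
  rw [e0] at hFs
  have hH := Hm_two_n p n hn h2
  have hn0 : (n : ZMod p) ≠ 0 := cast_ne_zero p n (by omega) (by omega)
  have hHa : Hm (ZMod p) (2 * n) = Hm (ZMod p) (2 * n - 1) + (2 * (n : ZMod p))⁻¹ := by
    obtain ⟨m, hm⟩ : ∃ m, 2 * n = m + 1 := ⟨2 * n - 1, by omega⟩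
    rw [hm, Hm_succ]
    have : m + 1 - 1 = m := by omega
    rw [this]
    have h5 : (m : ZMod p) + 1 = 2 * (n : ZMod p) := by
      have : ((m + 1 : ℕ) : ZMod p) = ((2 * n : ℕ) : ZMod p) := by rw [hm]
      push_cast at this
      exact this
    rw [h5]
  have hHb : Hm (ZMod p) n = Hm (ZMod p) (n - 1) + ((n : ZMod p))⁻¹ := by
    obtain ⟨m, hm⟩ : ∃ m, n = m + 1 := ⟨n - 1, by omega⟩
    rw [hm, Hm_succ]
    have : m + 1 - 1 = m := by omega
    rw [this]
    push_cast
    ring
  have h20 : (2 : ZMod p) ≠ 0 := by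
    have := cast_ne_zero p 2 (by omega) (by have := hp.out.two_le; omega)
    exact_mod_cast this
  have hdiff : Hm (ZMod p) (2 * n - 1) - Hm (ZMod p) (n - 1) = (2 * (n : ZMod p))⁻¹ := by
    have : Hm (ZMod p) (2 * n - 1) - Hm (ZMod p) (n - 1) = (n : ZMod p)⁻¹ - (2 * (n : ZMod p))⁻¹ := by
      linear_combination hH - hHa + hHb
    rw [this]
    field_simp
    ring
  have hc : (Nat.choose (2 * n) n : ZMod p) = 2 * (Nat.choose (2 * n - 1) n : ZMod p) := by
    obtain ⟨m, hm⟩ : ∃ m, n = m + 1 := ⟨n - 1, by omega⟩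
    have e : Nat.choose (2 * n) n = 2 * Nat.choose (2 * n - 1) n := by
      rw [hm]
      have a1 : 2 * (m + 1) = (2 * m + 1) + 1 := by ring
      have a2 : 2 * (m + 1) - 1 = 2 * m + 1 := by omega
      rw [a2, a1, Nat.choose_succ_succ]
      have a3 : Nat.choose (2 * m + 1) m = Nat.choose (2 * m + 1) (m + 1) := by
        apply Nat.choose_symm_of_eq_add
        ring
      rw [a3]; ring
    exact_mod_cast congrArg (Nat.cast : ℕ → ZMod p) e
  rw [step3, hFs, hdiff, hc]
  field_simp

end

end Pool.Agent.Lib.MP_748296_nt.H21
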