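import Mathlib
import Pool.Agent.Lib.MP_748296_nt.H21.Wsum

/-! # The Jacobi sum modulo `p^2` (helper21) -/

namespace Pool.Agent.Lib.MP_748296_nt.H21

open Finset

section
variable (p n : ℕ) [hp : Fact p.Prime]

instance neZero_sq : NeZero (p ^ 2) := ⟨pow_ne_zero 2 hp.out.ne_zero⟩

/-- reduction modulo `p` -/
def red : ZMod (p ^ 2) →+* ZMod p := ZMod.castHom (dvd_pow_self p two_ne_zero) (ZMod p)

lemma psq : (p : ZMod (p ^ 2)) ^ 2 = 0 := by
  have : ((p ^ 2 : ℕ) : ZMod (p ^ 2)) = 0 := ZMod.natCast_self _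
  exact_mod_cast this

lemma dvd_of_red {d : ZMod (p ^ 2)} (h : red p d = 0) : (p : ZMod (p ^ 2)) ∣ d := by
  have h1 : ((d.val : ℕ) : ZMod (p ^ 2)) = d := ZMod.natCast_zmod_val d
  rw [← h1, map_natCast, ZMod.natCast_eq_zero_iff] at h
  obtain ⟨c, hc⟩ := h
  rw [← h1, hc]
  exact ⟨c, by push_cast; ring⟩

lemma mul_eq_of_red {a b : ZMod (p ^ 2)} (h : red p a = red p b) :
    (p : ZMod (p ^ 2)) * a = p * b := by
  obtain ⟨c, hc⟩ := dvd_of_red p (d := a - b) (by rw [map_sub, h, sub_self])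
  have hq := psq p
  linear_combination (p : ZMod (p ^ 2)) * hc + c * hq

lemma pow_p_eq {a b : ZMod (p ^ 2)} (h : red p a = red p b) : a ^ p = b ^ p := by
  have hd := dvd_of_red p (d := a - b) (by rw [map_sub, h, sub_self])
  have h1 := dvd_sub_pow_of_dvd_sub hd 1
  rw [pow_one, one_add_one_eq_two, psq, zero_dvd_iff] at h1
  exact sub_eq_zero.mp h1

lemma isUnit_of_red {a : ZMod (p ^ 2)} (h : red p a ≠ 0) : IsUnit a := by
  have h1 : ((a.val : ℕ) : ZMod (p ^ 2)) = a := ZMod.natCast_zmod_val a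
  rw [← h1, map_natCast] at h
  rw [← h1, ZMod.isUnit_iff_coprime]
  apply Nat.Coprime.pow_right
  rw [Nat.coprime_comm, Nat.Prime.coprime_iff_not_dvd hp.out]
  intro hd
  exact h ((ZMod.natCast_eq_zero_iff _ _).mpr hd)

/-- Teichmueller lift modulo `p^2` -/
def T (x : ZMod p) : ZMod (p ^ 2) := (x.val : ZMod (p ^ 2)) ^ p

lemma red_val (x : ZMod p) : red p (x.val : ZMod (p ^ 2)) = x := by
  rw [map_natCast, ZMod.natCast_zmod_val]

lemma T_of_red {a : ZMod (p ^ 2)} {x : ZMod p} (h : red p a = x) : a ^ p = T p x := by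
  rw [T]
  apply pow_p_eq
  rw [h, red_val]

lemma red_T (x : ZMod p) : red p (T p x) = x := by
  rw [T, map_pow, red_val, ZMod.pow_card]

lemma T_pow_p (x : ZMod p) : (T p x) ^ p = T p x := T_of_red p (red_T p x)

lemma T_one_sub (x : ZMod p) : T p (1 - x) = (1 - T p x) ^ p := by
  symm
  apply T_of_red
  rw [map_sub, map_one, red_T]

lemma T_mul (x y : ZMod p) : T p (x * y) = T p x * T p y := by
  rw [T, T, T, ← mul_pow]
  apply pow_p_eq
  rw [map_mul, red_val, red_val, red_val]

lemma T_zero : T p 0 = 0 := by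
  rw [T, ZMod.val_zero, Nat.cast_zero, zero_pow hp.out.ne_zero]

lemma T_one : T p 1 = 1 := by
  have h : (1 : ZMod (p ^ 2)) ^ p = T p 1 := T_of_red p (map_one _)
  rw [← h, one_pow]

lemma T_pow (x : ZMod p) (k : ℕ) : T p (x ^ k) = (T p x) ^ k := by
  induction k with
  | zero => rw [pow_zero, pow_zero, T_one]
  | succ k ih =>
    have h1 : x ^ (k + 1) = x ^ k * x := pow_succ x k
    have h2 : (T p x) ^ (k + 1) = (T p x) ^ k * T p x := pow_succ _ k
    rw [h1, h2, T_mul, ih]

lemma T_pow_card_sub_one {x : ZMod p} (hx : x ≠ 0) : (T p x) ^ (p - 1) = 1 := by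
  rw [← T_pow, ZMod.pow_card_sub_one_eq_one hx, T_one]

lemma T_pow_sum (e : ℕ) (he : 0 < e) :
    ∑ x : ZMod p, (T p x) ^ e = if (p - 1) ∣ e then (p : ZMod (p ^ 2)) - 1 else 0 := by
  classical
  split_ifs with h
  · obtain ⟨c, rfl⟩ := h
    have h1 : ∀ x : ZMod p, (T p x) ^ ((p - 1) * c) = if x = 0 then 0 else 1 := by
      intro x
      split_ifs with hx
      · rw [hx, T_zero, zero_pow he.ne']
      · rw [pow_mul, T_pow_card_sub_one p hx, one_pow]
    simp_rw [h1]
    rw [← sum_filter_not_add_sum_filter univ (fun x : ZMod p => x = 0)]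
    have h2 : ∑ x ∈ (univ : Finset (ZMod p)).filter (fun x => x = 0), (if x = 0 then (0 : ZMod (p ^ 2)) else 1) = 0 := by
      apply sum_eq_zero
      intro x hx
      rw [mem_filter] at hx
      rw [if_pos hx.2]
    have h3 : ∑ x ∈ (univ : Finset (ZMod p)).filter (fun x => ¬ x = 0), (if x = 0 then (0 : ZMod (p ^ 2)) else 1)
        = (p : ZMod (p ^ 2)) - 1 := by
      rw [sum_congr rfl (g := fun _ => (1 : ZMod (p ^ 2)))]
      · rw [sum_const, nsmul_eq_mul, mul_one]
        have : ((univ : Finset (ZMod p)).filter (fun x => ¬ x = 0)).card = p - 1 := by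
          rw [filter_ne' univ (0 : ZMod p), card_erase_of_mem (mem_univ _), card_univ, ZMod.card]
        rw [this, Nat.cast_sub hp.out.one_le, Nat.cast_one]
      · intro x hx
        rw [mem_filter] at hx
        rw [if_neg hx.2]
    rw [h2, h3, add_zero]
  · -- a unit with `g^e ≠ 1`
    have hne : ∃ g : ZMod p, g ≠ 0 ∧ g ^ e ≠ 1 := by
      by_contra hcon
      push Not at hcon
      have hs := pow_sum p e he
      rw [if_neg h] at hs
      have h1 : ∀ x : ZMod p, x ^ e = if x = 0 then 0 else 1 := by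
        intro x
        split_ifs with hx
        · rw [hx, zero_pow he.ne']
        · exact hcon x hx
      simp_rw [h1] at hs
      have h3 : ∑ x : ZMod p, (if x = 0 then (0 : ZMod p) else 1) = (p : ZMod p) - 1 := by
        have : ∀ x : ZMod p, (if x = 0 then (0 : ZMod p) else 1) = 1 - (if x = 0 then 1 else 0) := by
          intro x; split_ifs <;> ring
        simp_rw [this]
        rw [sum_sub_distrib, sum_const, card_univ, ZMod.card, nsmul_eq_mul, mul_one, sum_ite_eq']
        simp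
      rw [h3, ZMod.natCast_self, zero_sub, neg_eq_zero] at hs
      exact one_ne_zero hs
    obtain ⟨g, hg0, hg⟩ := hne
    have hb : ∑ x : ZMod p, (T p (g * x)) ^ e = ∑ x : ZMod p, (T p x) ^ e :=
      Fintype.sum_bijective (fun x => g * x) (mulLeft_bijective₀ g hg0) _ _ (fun x => rfl)
    simp_rw [T_mul, mul_pow] at hb
    rw [← mul_sum] at hb
    have hu : IsUnit ((T p g) ^ e - 1) := by
      apply isUnit_of_red
      rw [map_sub, map_pow, red_T, map_one, sub_ne_zero]
      exact hg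
    have : ((T p g) ^ e - 1) * ∑ x : ZMod p, (T p x) ^ e = 0 := by
      rw [sub_mul, one_mul, hb, sub_self]
    exact hu.mul_right_eq_zero.mp this

/-- coefficients of `(1 - z^p - (1-z)^p)/p` -/
def cc (k : ℕ) : ZMod (p ^ 2) := (-1) ^ k * ((Nat.choose p (k + 1) / p : ℕ) : ZMod (p ^ 2))

lemma p_dvd_choose (k : ℕ) (hk : k + 1 < p) : p ∣ Nat.choose p (k + 1) :=
  hp.out.dvd_choose_self (by omega) hk

lemma choose_p_sub_one (k : ℕ) (hk : k < p) : (Nat.choose (p - 1) k : ZMod p) = (-1) ^ k := by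
  induction k with
  | zero => simp
  | succ k ih =>
    have h1 : Nat.choose p (k + 1) = Nat.choose (p - 1) k + Nat.choose (p - 1) (k + 1) := by
      have : p = (p - 1) + 1 := by have := hp.out.one_le; omega
      nth_rewrite 1 [this]
      exact Nat.choose_succ_succ _ _
    have h2 : ((Nat.choose p (k + 1) : ℕ) : ZMod p) = 0 := by
      rw [ZMod.natCast_eq_zero_iff]; exact p_dvd_choose p k hk
    rw [h1] at h2
    push_cast at h2
    rw [ih (by omega)] at h2
    rw [pow_succ]
    linear_combination h2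

lemma red_cc (k : ℕ) (hk : k + 1 < p) : red p (cc p k) = ((k : ZMod p) + 1)⁻¹ := by
  have hk1 : ((k : ZMod p) + 1) ≠ 0 := by
    have := cast_ne_zero p (k + 1) (by omega) hk
    push_cast at this
    exact this
  have h1 : p * Nat.choose (p - 1) k = Nat.choose p (k + 1) * (k + 1) := by
    have e : p = (p - 1) + 1 := by have := hp.out.one_le; omega
    have := Nat.add_one_mul_choose_eq (p - 1) k
    rw [← e] at this
    exact this
  obtain ⟨c, hc⟩ := p_dvd_choose p k hk
  have h2 : Nat.choose p (k + 1) / p = c := by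
    rw [hc]; exact Nat.mul_div_cancel_left c hp.out.pos
  rw [cc, h2, map_mul, map_pow, map_neg, map_one, map_natCast]
  have h3 : Nat.choose (p - 1) k = c * (k + 1) := by
    rw [hc, mul_assoc] at h1
    exact Nat.eq_of_mul_eq_mul_left hp.out.pos h1
  have h4 := choose_p_sub_one p k (by omega)
  rw [h3] at h4
  push_cast at h4
  have h5 : ((-1 : ZMod p) ^ k) * ((-1 : ZMod p) ^ k) = 1 := by
    rw [← mul_pow]; simp
  apply eq_inv_of_mul_eq_one_left
  linear_combination (-1 : ZMod p) ^ k * h4 + h5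

lemma one_sub_pow (hp2 : p ≠ 2) (z : ZMod (p ^ 2)) :
    (1 - z) ^ p = 1 - z ^ p - (p : ZMod (p ^ 2)) * ∑ k ∈ range (p - 1), cc p k * z ^ (k + 1) := by
  have hodd : Odd p := hp.out.odd_of_ne_two hp2
  have h0 : (1 - z) = (-z) + 1 := by ring
  rw [h0, add_pow, sum_range_succ]
  have h1 : range p = range ((p - 1) + 1) := by
    have : p = (p - 1) + 1 := by have := hp.out.one_le; omega
    exact congrArg range this
  have h2 : ∑ x ∈ range p, (-z) ^ x * 1 ^ (p - x) * (Nat.choose p x : ZMod (p ^ 2)) =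
      1 - (p : ZMod (p ^ 2)) * ∑ k ∈ range (p - 1), cc p k * z ^ (k + 1) := by
    rw [h1, sum_range_succ', mul_sum, Nat.choose_zero_right, sub_eq_add_neg, add_comm, ← sum_neg_distrib]
    congr 1
    · simp
    · apply sum_congr rfl
      intro k hk
      rw [mem_range] at hk
      obtain ⟨c, hc⟩ := p_dvd_choose p k (by omega)
      have h2 : Nat.choose p (k + 1) / p = c := by
        rw [hc]; exact Nat.mul_div_cancel_left c hp.out.pos
      rw [cc, h2, hc, one_pow, neg_pow]
      push_cast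
      ring
  rw [h2, Nat.choose_self, Nat.sub_self, pow_zero, hodd.neg_pow]
  push_cast
  ring

lemma add_p_pow (a b : ZMod (p ^ 2)) (m : ℕ) :
    (a + (p : ZMod (p ^ 2)) * b) ^ m =
      a ^ m + (m : ZMod (p ^ 2)) * a ^ (m - 1) * ((p : ZMod (p ^ 2)) * b) := by
  induction m with
  | zero => simp
  | succ m ih =>
    have hs : (a + (p : ZMod (p ^ 2)) * b) ^ (m + 1) =
        (a + (p : ZMod (p ^ 2)) * b) ^ m * (a + (p : ZMod (p ^ 2)) * b) := pow_succ _ m
    rw [hs, ih]
    have hq := psq p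
    rcases Nat.eq_zero_or_pos m with rfl | hm
    · simp
    · obtain ⟨m, rfl⟩ : ∃ m', m = m' + 1 := ⟨m - 1, by omega⟩
      have e1 : m + 1 - 1 = m := by omega
      have e2 : m + 1 + 1 - 1 = m + 1 := by omega
      rw [e1, e2]
      push_cast
      linear_combination ((m : ZMod (p ^ 2)) + 1) * a ^ m * b * b * hq

variable (hn : p = 3 * n + 1)

include hn in
lemma first_sum (hp2 : p ≠ 2) :
    ∑ x : ZMod p, (T p x) ^ (2 * n) * (1 - T p x) ^ (2 * n) =
      ((p : ZMod (p ^ 2)) - 1) * (Nat.choose (2 * n) n : ZMod (p ^ 2)) := by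
  have hnp := n_pos p n hn
  have hev := n_even p n hn hp2
  have : ∀ x : ZMod p, (T p x) ^ (2 * n) * (1 - T p x) ^ (2 * n) =
      ∑ l ∈ range (2 * n + 1), (-1) ^ l * (Nat.choose (2 * n) l : ZMod (p ^ 2)) * (T p x) ^ (2 * n + l) := by
    intro x
    have h1 : (1 - T p x) = (- T p x) + 1 := by ring
    rw [h1, add_pow, mul_sum]
    apply sum_congr rfl
    intro l _
    rw [one_pow, neg_pow, pow_add]
    ring
  simp_rw [this]
  rw [sum_comm]
  have e : p - 1 = 3 * n := by omega
  rw [sum_eq_single n]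
  · rw [← mul_sum, T_pow_sum p _ (by omega), if_pos (by rw [e]; exact ⟨1, by omega⟩), hev.neg_one_pow]
    ring
  · intro l hl hne
    rw [mem_range] at hl
    rw [← mul_sum, T_pow_sum p _ (by omega), if_neg, mul_zero]
    rw [e]
    rintro ⟨c, hc⟩
    have hc1 : c < 2 := by
      by_contra hcc
      have : 3 * n * 2 ≤ 3 * n * c := Nat.mul_le_mul_left _ (by omega)
      omega
    have : c = 0 ∨ c = 1 := by omega
    rcases this with rfl | rfl <;> omega
  · intro h
    rw [mem_range] at h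
    omega

include hn in
/-- `∑ T(x)^{2n} T(1-x)^{2n} = - binom(2n,n)` modulo `p^2`. -/
theorem jac_mod (hp2 : p ≠ 2) :
    ∑ x : ZMod p, (T p x) ^ (2 * n) * (T p (1 - x)) ^ (2 * n) =
      - (Nat.choose (2 * n) n : ZMod (p ^ 2)) := by
  have hnp := n_pos p n hn
  have e : p - 1 = 3 * n := by omega
  have h1 : ∀ x : ZMod p, (T p x) ^ (2 * n) * (T p (1 - x)) ^ (2 * n) =
      (T p x) ^ (2 * n) * (1 - T p x) ^ (2 * n) -
      (p : ZMod (p ^ 2)) * (2 * (n : ZMod (p ^ 2)) * ((T p x) ^ (2 * n) * (1 - T p x) ^ (2 * n - 1) *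
        ∑ k ∈ range (3 * n), cc p k * (T p x) ^ (k + 1))) := by
    intro x
    have h2 : T p (1 - x) = (1 - T p x) + (p : ZMod (p ^ 2)) * (- ∑ k ∈ range (3 * n), cc p k * (T p x) ^ (k + 1)) := by
      rw [T_one_sub, one_sub_pow p hp2, T_pow_p, e]
      ring
    rw [h2, add_p_pow]
    push_cast
    ring
  simp_rw [h1]
  rw [sum_sub_distrib, first_sum p n hn hp2, ← mul_sum, ← mul_sum]
  have h3 : red p (2 * (n : ZMod (p ^ 2)) * ∑ x : ZMod p, ((T p x) ^ (2 * n) * (1 - T p x) ^ (2 * n - 1) *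
        ∑ k ∈ range (3 * n), cc p k * (T p x) ^ (k + 1))) =
      red p (Nat.choose (2 * n) n : ZMod (p ^ 2)) := by
    rw [map_mul, map_mul, map_sum, map_natCast, map_natCast, map_ofNat, ← W_eq p n hn hp2, W]
    congr 1
    apply sum_congr rfl
    intro x _
    rw [map_mul, map_mul, map_pow, map_pow, map_sub, map_one, red_T, map_sum]
    congr 1
    apply sum_congr rfl
    intro k hk
    rw [mem_range] at hk
    rw [map_mul, map_pow, red_T, red_cc p k (by omega)]
  rw [mul_eq_of_red p h3]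
  ring

end

end Pool.Agent.Lib.MP_748296_nt.H21
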