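import Mathlib
import Pool.Agent.Lib.MP_748296_nt.H21.Teich

/-! # The universal cubic Jacobi sum (helper21) -/

namespace Pool.Agent.Lib.MP_748296_nt.H21

open Finset

/-- Eisenstein integers, `w^2 = -1 - w`. -/
abbrev E := QuadraticAlgebra ℤ (-1) (-1)

/-- the root of unity -/
def om : E := ⟨0, 1⟩

lemma om_sq : om ^ 2 + om + 1 = 0 := by
  ext <;> simp [om, sq, QuadraticAlgebra.re_one, QuadraticAlgebra.im_one]

lemma om_cube : om ^ 3 = 1 := by
  have h := om_sq
  linear_combination (om - 1) * h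

/-- evaluation `a + b w ↦ a + b w` -/
def ev {R : Type*} [CommRing R] (w : R) (hw : w ^ 2 + w + 1 = 0) : E →+* R where
  toFun z := (z.re : R) + (z.im : R) * w
  map_zero' := by simp
  map_one' := by simp [QuadraticAlgebra.re_one, QuadraticAlgebra.im_one]
  map_add' x y := by
    simp only [QuadraticAlgebra.re_add, QuadraticAlgebra.im_add]
    push_cast
    ring
  map_mul' x y := by
    simp only [QuadraticAlgebra.re_mul, QuadraticAlgebra.im_mul]
    push_cast
    linear_combination -((x.im : R) * (y.im : R)) * hw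

lemma ev_apply {R : Type*} [CommRing R] (w : R) (hw : w ^ 2 + w + 1 = 0) (z : E) :
    ev w hw z = (z.re : R) + (z.im : R) * w := rfl

lemma ev_om {R : Type*} [CommRing R] (w : R) (hw : w ^ 2 + w + 1 = 0) : ev w hw om = w := by
  rw [ev_apply]; simp [om]

/-- norm form -/
def nm (z : E) : ℤ := z.re ^ 2 - z.re * z.im + z.im ^ 2

lemma nm_mul (x y : E) : nm (x * y) = nm x * nm y := by
  simp only [nm, QuadraticAlgebra.re_mul, QuadraticAlgebra.im_mul]
  ring

lemma nm_eq_zero {x : E} (h : nm x = 0) : x = 0 := by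
  have h1 : (2 * x.re - x.im) ^ 2 + 3 * x.im ^ 2 = 0 := by
    rw [nm] at h; linear_combination 4 * h
  have h2 : x.im = 0 := by
    have : x.im ^ 2 = 0 := by nlinarith [sq_nonneg (2 * x.re - x.im), sq_nonneg x.im]
    exact pow_eq_zero_iff (two_ne_zero) |>.mp this
  have h3 : x.re = 0 := by
    rw [h2] at h1
    have : x.re ^ 2 = 0 := by linarith
    exact pow_eq_zero_iff (two_ne_zero) |>.mp this
  ext
  · rw [h3]; rfl
  · rw [h2]; rfl

instance : NoZeroDivisors E where
  eq_zero_or_eq_zero_of_mul_eq_zero := by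
    intro a b h
    have h1 : nm a * nm b = 0 := by
      rw [← nm_mul, h]; simp [nm]
    rcases mul_eq_zero.mp h1 with h2 | h2
    · exact Or.inl (nm_eq_zero h2)
    · exact Or.inr (nm_eq_zero h2)

instance : IsDomain E := NoZeroDivisors.to_isDomain E

/-- `om` as a unit -/
def omu : Eˣ := ⟨om, om ^ 2, by rw [← pow_succ', om_cube], by rw [← pow_succ, om_cube]⟩

section
variable (p n : ℕ) [hp : Fact p.Prime] (hn : p = 3 * n + 1)

include hn in
lemma omu_mem : omu ∈ rootsOfUnity (Fintype.card (ZMod p)ˣ) E := by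
  rw [mem_rootsOfUnity, ZMod.card_units_eq_totient, Nat.totient_prime hp.out]
  have e : p - 1 = 3 * n := by omega
  rw [e, pow_mul]
  have h3 : omu ^ 3 = 1 := by
    ext1
    push_cast
    exact om_cube
  rw [h3, one_pow]

/-- the cubic character with values in `E` -/
noncomputable def chi0 {g : (ZMod p)ˣ} (hg : ∀ x, x ∈ Subgroup.zpowers g) : MulChar (ZMod p) E :=
  MulChar.ofRootOfUnity (omu_mem p n hn) hg

variable {g : (ZMod p)ˣ} (hg : ∀ x, x ∈ Subgroup.zpowers g)

lemma chi0_g : chi0 p n hn hg g = om := by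
  rw [chi0, MulChar.ofRootOfUnity_spec]
  rfl

/-- the universal Jacobi sum -/
noncomputable def J0 : E := jacobiSum (chi0 p n hn hg) (chi0 p n hn hg)

/-- the cubic character with values in any ring with a root of `w^2+w+1` -/
noncomputable def chi {R : Type*} [CommRing R] (w : R) (hw : w ^ 2 + w + 1 = 0) : MulChar (ZMod p) R :=
  (chi0 p n hn hg).ringHomComp (ev w hw)

lemma chi_apply {R : Type*} [CommRing R] (w : R) (hw : w ^ 2 + w + 1 = 0) (x : ZMod p) :
    chi p n hn hg w hw x = ev w hw (chi0 p n hn hg x) := rfl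

lemma chi_g {R : Type*} [CommRing R] (w : R) (hw : w ^ 2 + w + 1 = 0) :
    chi p n hn hg w hw g = w := by
  rw [chi_apply, chi0_g, ev_om]

lemma jac_chi {R : Type*} [CommRing R] (w : R) (hw : w ^ 2 + w + 1 = 0) :
    jacobiSum (chi p n hn hg w hw) (chi p n hn hg w hw) = ev w hw (J0 p n hn hg) := by
  rw [chi, jacobiSum_ringHomComp]
  rfl

lemma w_cube {R : Type*} [CommRing R] (w : R) (hw : w ^ 2 + w + 1 = 0) : w ^ 3 = 1 := by
  linear_combination (w - 1) * hw

lemma chi0_cube : (chi0 p n hn hg) ^ 3 = 1 := by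
  rw [MulChar.eq_iff hg, MulChar.pow_apply_coe, chi0_g, om_cube, MulChar.one_apply_coe]

lemma chi_cube {R : Type*} [CommRing R] (w : R) (hw : w ^ 2 + w + 1 = 0) :
    (chi p n hn hg w hw) ^ 3 = 1 := by
  rw [MulChar.eq_iff hg, MulChar.pow_apply_coe, chi_g, w_cube w hw, MulChar.one_apply_coe]

lemma om_primitive : IsPrimitiveRoot om 3 := by
  apply IsPrimitiveRoot.of_map_of_injective (f := RingHom.id E) _ Function.injective_id
  rw [RingHom.id_apply]
  refine IsPrimitiveRoot.mk_of_lt om (by norm_num) om_cube ?_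
  intro l hl hl3 h
  have : l = 1 ∨ l = 2 := by omega
  rcases this with rfl | rfl
  · have := congrArg QuadraticAlgebra.im h
    simp [om, QuadraticAlgebra.im_one] at this
  · have := congrArg QuadraticAlgebra.im h
    simp [om, sq, QuadraticAlgebra.im_one] at this

/-- `J0 = -1 mod 3`. -/
theorem J0_mod3 : (3 : ℤ) ∣ (J0 p n hn hg).re + 1 ∧ (3 : ℤ) ∣ (J0 p n hn hg).im := by
  have h3 : 3 ∣ Fintype.card (ZMod p) - 1 := by
    rw [ZMod.card]; exact ⟨n, by omega⟩
  obtain ⟨z, _, hz⟩ := exists_jacobiSum_eq_neg_one_add (n := 3) (by norm_num)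
    (chi0_cube p n hn hg) (chi0_cube p n hn hg) h3 om_primitive
  have h1 : (om - 1) ^ 2 = (-3 : E) * om := by
    have := om_sq
    linear_combination this
  rw [h1] at hz
  have hre := congrArg QuadraticAlgebra.re hz
  have him := congrArg QuadraticAlgebra.im hz
  rw [← J0] at hre him
  have h3r : (-3 : E).re = -3 := by
    show (-(3 : E)).re = -3
    rw [QuadraticAlgebra.re_neg]; rfl
  have h3i : (-3 : E).im = 0 := by
    show (-(3 : E)).im = 0
    rw [QuadraticAlgebra.im_neg]; rfl
  have h1r : (-1 : E).re = -1 := by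
    rw [QuadraticAlgebra.re_neg]; rfl
  have h1i : (-1 : E).im = 0 := by
    rw [QuadraticAlgebra.im_neg]; rfl
  simp only [QuadraticAlgebra.re_add, QuadraticAlgebra.im_add, QuadraticAlgebra.re_mul,
    QuadraticAlgebra.im_mul, h3r, h3i, h1r, h1i, om] at hre him
  constructor
  · exact ⟨z.im, by rw [hre]; ring⟩
  · exact ⟨z.im - z.re, by rw [him]; ring⟩

lemma chi_ne_one {R : Type*} [CommRing R] (w : R) (hw : w ^ 2 + w + 1 = 0) (h3 : (3 : R) ≠ 0) :
    chi p n hn hg w hw ≠ 1 := by
  intro h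
  have h1 := chi_g p n hn hg w hw
  rw [h, MulChar.one_apply_coe] at h1
  apply h3
  rw [← h1] at hw
  linear_combination hw

lemma chi_inv {R : Type*} [CommRing R] (w : R) (hw : w ^ 2 + w + 1 = 0)
    (hw2 : (w ^ 2) ^ 2 + w ^ 2 + 1 = 0) :
    (chi p n hn hg w hw)⁻¹ = chi p n hn hg (w ^ 2) hw2 := by
  have h1 : (chi p n hn hg w hw) * chi p n hn hg (w ^ 2) hw2 = 1 := by
    rw [MulChar.eq_iff hg, MulChar.mul_apply, chi_g, chi_g, MulChar.one_apply_coe, ← pow_succ',
      w_cube w hw]
  exact inv_eq_of_mul_eq_one_right h1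

/-- `N(J0) = p`. -/
theorem J0_norm : nm (J0 p n hn hg) = p := by
  have hpr : IsPrimitiveRoot (Complex.exp (2 * Real.pi * Complex.I / (3 : ℕ))) 3 :=
    Complex.isPrimitiveRoot_exp 3 (by norm_num)
  set w := Complex.exp (2 * Real.pi * Complex.I / (3 : ℕ)) with hwdef
  have hw : w ^ 2 + w + 1 = 0 := by
    have := hpr.geom_sum_eq_zero (by norm_num)
    simp only [sum_range_succ, sum_range_zero, pow_zero, pow_one] at this
    linear_combination this
  have hw3 := w_cube w hw
  have hw2 : (w ^ 2) ^ 2 + w ^ 2 + 1 = 0 := by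
    linear_combination hw + w * hw3
  have hchar : ringChar ℂ ≠ ringChar (ZMod p) := by
    rw [ringChar.eq_zero, ZMod.ringChar_zmod_n]
    exact hp.out.ne_zero.symm
  have hne := chi_ne_one p n hn hg w hw (by norm_num)
  have hne2 : chi p n hn hg w hw * chi p n hn hg w hw ≠ 1 := by
    intro h
    have h3 := chi_cube p n hn hg w hw
    rw [pow_succ, sq, h, one_mul] at h3
    exact hne h3
  have h := jacobiSum_mul_jacobiSum_inv hchar hne hne hne2
  rw [chi_inv p n hn hg w hw hw2, jac_chi, jac_chi, ZMod.card, ev_apply, ev_apply] at h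
  have h2 : ((nm (J0 p n hn hg) : ℤ) : ℂ) = ((p : ℤ) : ℂ) := by
    rw [nm]
    push_cast
    rw [← h]
    linear_combination (-((J0 p n hn hg).re : ℂ) * (J0 p n hn hg).im) * hw - ((J0 p n hn hg).im : ℂ) ^ 2 * hw3
  exact_mod_cast h2

end

end Pool.Agent.Lib.MP_748296_nt.H21
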