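import Mathlib
import Pool.Agent.Lib.MP_748296_nt.H21.Univ

/-! # The cubic residue symbol of 5 (helper21) -/

namespace Pool.Agent.Lib.MP_748296_nt.H21

open Finset

/-- real part of `(A + B s)^8`, `s^2 = 2`, over `ZMod 5` -/
def P8 (A B : ZMod 5) : ZMod 5 :=
  let a1 := A ^ 2 + 2 * B ^ 2
  let b1 := 2 * A * B
  let a2 := a1 ^ 2 + 2 * b1 ^ 2
  let b2 := 2 * a1 * b1
  a2 ^ 2 + 2 * b2 ^ 2

/-- imaginary part -/
def Q8 (A B : ZMod 5) : ZMod 5 :=
  let a1 := A ^ 2 + 2 * B ^ 2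
  let b1 := 2 * A * B
  let a2 := a1 ^ 2 + 2 * b1 ^ 2
  let b2 := 2 * a1 * b1
  2 * a2 * b2

lemma decide5 : ∀ A B : ZMod 5, (P8 A B - 1) ^ 2 = 2 * (Q8 A B) ^ 2 → A * B = 0 := by
  decide

section
variable (p n : ℕ) [hp : Fact p.Prime] (hn : p = 3 * n + 1)
variable {g : (ZMod p)ˣ} (hg : ∀ x, x ∈ Subgroup.zpowers g)

/-- `J0 χ(5)` -/
noncomputable def pi5 : E := J0 p n hn hg * chi0 p n hn hg 5

lemma sq_expand {R : Type*} [CommRing R] (s a b : R) (hs : s ^ 2 = 2) :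
    (a + b * s) ^ 2 = (a ^ 2 + 2 * b ^ 2) + (2 * a * b) * s := by
  linear_combination b ^ 2 * hs

/-- In characteristic `5`, `J^8 = χ(5)`. -/
theorem gauss5 (h5 : p ≠ 5) {R : Type} [Field R] [IsAlgClosed R] [CharP R 5]
    (w : R) (hw : w ^ 2 + w + 1 = 0) :
    (ev w hw (J0 p n hn hg)) ^ 8 = chi p n hn hg w hw 5 := by
  haveI : Fact (Nat.Prime 5) := ⟨by norm_num⟩
  have hp5R : (p : R) ≠ 0 := by
    intro h
    rw [CharP.cast_eq_zero_iff R 5] at h
    exact h5 ((Nat.prime_dvd_prime_iff_eq (by norm_num) hp.out).mp h).symm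
  haveI : NeZero (p : R) := ⟨hp5R⟩
  obtain ⟨ζ, hζ⟩ := HasEnoughRootsOfUnity.exists_primitiveRoot R p
  haveI : NeZero p := ⟨hp.out.ne_zero⟩
  set ψ := AddChar.zmodChar p ((IsPrimitiveRoot.iff_def ζ p).mp hζ).left with hψ
  have hprim : ψ.IsPrimitive := AddChar.zmodChar_primitive_of_primitive_root p hζ
  have h3R : (3 : R) ≠ 0 := by
    intro h
    have : ((3 : ℕ) : R) = 0 := by exact_mod_cast h
    rw [CharP.cast_eq_zero_iff R 5] at this
    omega
  have hne := chi_ne_one p n hn hg w hw h3R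
  have hcube := chi_cube p n hn hg w hw
  have hord : orderOf (chi p n hn hg w hw) = 3 := by
    exact orderOf_eq_prime hcube hne
  have hG := gaussSum_pow_eq_prod_jacobiSum (χ := chi p n hn hg w hw) (ψ := ψ) (by rw [hord]; norm_num) hprim
  rw [hord] at hG
  have hm1 : chi p n hn hg w hw (-1) = 1 :=
    MulChar.val_neg_one_eq_one_of_odd_order (n := 3) (by decide) hcube
  have hIco : Ico 1 (3 - 1) = {1} := by decide
  rw [hm1, one_mul, hIco, prod_singleton, pow_one, ZMod.card, jac_chi] at hG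
  -- Frobenius twice
  have hF1 := gaussSum_frob 5 (chi p n hn hg w hw) ψ
  have hF2 := gaussSum_frob 5 ((chi p n hn hg w hw) ^ 5) (ψ ^ 5)
  rw [← hF1, ← pow_mul, ← pow_mul, ← pow_mul] at hF2
  have hc25 : (chi p n hn hg w hw) ^ (5 * 5) = chi p n hn hg w hw := by
    have : 5 * 5 = 3 * 8 + 1 := by norm_num
    rw [this, pow_add, pow_mul, hcube, one_pow, one_mul, pow_one]
  rw [hc25, AddChar.pow_mulShift] at hF2
  -- 5 as a unit of `ZMod p`
  have h5u : (5 : ZMod p) ≠ 0 := by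
    intro h
    have : ((5 : ℕ) : ZMod p) = 0 := by exact_mod_cast h
    rw [ZMod.natCast_eq_zero_iff] at this
    exact h5 ((Nat.prime_dvd_prime_iff_eq hp.out (by norm_num)).mp this)
  set u : (ZMod p)ˣ := Units.mk0 5 h5u with hu
  have h25 : ((5 * 5 : ℕ) : ZMod p) = ((u ^ 2 : (ZMod p)ˣ) : ZMod p) := by
    rw [hu]; push_cast; simp only [Units.val_mk0]; norm_num
  rw [h25, gaussSum_mulShift_eq] at hF2
  have hχu : (chi p n hn hg w hw) (5 : ZMod p) ^ 3 = 1 := by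
    have : (5 : ZMod p) = (u : ZMod p) := rfl
    rw [this, ← MulChar.pow_apply_coe, hcube, MulChar.one_apply_coe]
  have hinv : (chi p n hn hg w hw)⁻¹ ((u ^ 2 : (ZMod p)ˣ) : ZMod p) = chi p n hn hg w hw 5 := by
    have h1 : (chi p n hn hg w hw)⁻¹ ((u ^ 2 : (ZMod p)ˣ) : ZMod p) *
        (chi p n hn hg w hw) ((u ^ 2 : (ZMod p)ˣ) : ZMod p) = 1 := by
      rw [← MulChar.mul_apply, inv_mul_cancel, MulChar.one_apply_coe]
    have h2 : (chi p n hn hg w hw) ((u ^ 2 : (ZMod p)ˣ) : ZMod p) = (chi p n hn hg w hw 5) ^ 2 := by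
      push_cast
      rw [map_pow]
      rfl
    rw [h2] at h1
    have h3 : (chi p n hn hg w hw)⁻¹ ((u ^ 2 : (ZMod p)ˣ) : ZMod p) *
        (chi p n hn hg w hw 5) ^ 3 = chi p n hn hg w hw 5 := by
      linear_combination (chi p n hn hg w hw 5) * h1
    rw [hχu, mul_one] at h3
    exact h3
  rw [hinv] at hF2
  have hg0 : gaussSum (chi p n hn hg w hw) ψ ≠ 0 :=
    gaussSum_ne_zero_of_nontrivial (by rw [ZMod.card]; exact hp5R) hne hprim
  have h24 : gaussSum (chi p n hn hg w hw) ψ ^ 24 = chi p n hn hg w hw 5 := by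
    apply mul_right_cancel₀ hg0
    rw [← hF2]
    ring
  have h24' : gaussSum (chi p n hn hg w hw) ψ ^ 24 = (gaussSum (chi p n hn hg w hw) ψ ^ 3) ^ 8 := by
    rw [← pow_mul]
  rw [h24', hG, mul_pow] at h24
  have hp8 : (p : R) ^ 8 = 1 := by
    have h1 : ((p : ZMod 5)) ^ 8 = 1 := by
      have h2 : (p : ZMod 5) ≠ 0 := by
        intro h
        rw [ZMod.natCast_eq_zero_iff] at h
        exact h5 ((Nat.prime_dvd_prime_iff_eq (by norm_num) hp.out).mp h).symm
      have h3 := ZMod.pow_card_sub_one_eq_one h2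
      have : (8 : ℕ) = (5 - 1) * 2 := by norm_num
      rw [this, pow_mul, h3, one_pow]
    have h2 := congrArg (ZMod.castHom (dvd_refl 5) R) h1
    rw [map_pow, map_natCast, map_one] at h2
    exact h2
  rw [hp8, one_mul] at h24
  exact h24

/-- `5` divides `(2 re - im) im` for `J0 χ(5)`. -/
theorem five (h5 : p ≠ 5) :
    (5 : ℤ) ∣ (2 * (pi5 p n hn hg).re - (pi5 p n hn hg).im) * (pi5 p n hn hg).im := by
  haveI : Fact (Nat.Prime 5) := ⟨by norm_num⟩
  let R := AlgebraicClosure (ZMod 5)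
  haveI : CharP R 5 := charP_of_injective_algebraMap (algebraMap (ZMod 5) R).injective 5
  obtain ⟨w, hw'⟩ : ∃ w : R, w ^ 2 + w + 1 = 0 := by
    have h3 : NeZero ((3 : ℕ) : R) := ⟨by
      intro h
      rw [CharP.cast_eq_zero_iff R 5] at h
      omega⟩
    obtain ⟨ζ, hζ⟩ := HasEnoughRootsOfUnity.exists_primitiveRoot R 3
    refine ⟨ζ, ?_⟩
    have := hζ.geom_sum_eq_zero (by norm_num)
    simp only [sum_range_succ, sum_range_zero, pow_zero, pow_one] at this
    linear_combination this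
  have hJ := gauss5 p n hn hg h5 w hw'
  have h5u : (5 : ZMod p) ≠ 0 := by
    intro h
    have : ((5 : ℕ) : ZMod p) = 0 := by exact_mod_cast h
    rw [ZMod.natCast_eq_zero_iff] at this
    exact h5 ((Nat.prime_dvd_prime_iff_eq hp.out (by norm_num)).mp this)
  have hχ3 : (chi p n hn hg w hw' 5) ^ 3 = 1 := by
    have : (5 : ZMod p) = ((Units.mk0 5 h5u : (ZMod p)ˣ) : ZMod p) := rfl
    rw [this, ← MulChar.pow_apply_coe, chi_cube, MulChar.one_apply_coe]
  have hpi : (ev w hw' (pi5 p n hn hg)) ^ 8 = 1 := by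
    rw [pi5, map_mul, mul_pow, hJ, ← chi_apply]
    linear_combination ((chi p n hn hg w hw' 5) ^ 6 + (chi p n hn hg w hw' 5) ^ 3 + 1) * hχ3
  set x := pi5 p n hn hg with hx
  rw [ev_apply] at hpi
  have h50 : (5 : R) = 0 := by
    have : ((5 : ℕ) : R) = 0 := CharP.cast_eq_zero R 5
    exact_mod_cast this
  set s : R := 2 * w + 1 with hs
  have hs2 : s ^ 2 = 2 := by
    rw [hs]
    linear_combination 4 * hw' - h50
  let ι : ZMod 5 →+* R := algebraMap (ZMod 5) R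
  have hι : ∀ z : ℤ, ι (z : ZMod 5) = (z : R) := fun z => map_intCast ι z
  set A : ZMod 5 := ((2 * x.re - x.im : ℤ) : ZMod 5) with hA
  set B : ZMod 5 := ((x.im : ℤ) : ZMod 5) with hB
  have e1 : (2 : R) * ((x.re : R) + (x.im : R) * w) = ι A + ι B * s := by
    rw [hA, hB, hι, hι, hs]
    push_cast
    ring
  have e2 : (ι A + ι B * s) ^ 8 = 1 := by
    rw [← e1, mul_pow, hpi]
    linear_combination 51 * h50
  have e3 : (ι A + ι B * s) ^ 8 = ι (P8 A B) + ι (Q8 A B) * s := by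
    have h2 : ι 2 = 2 := map_ofNat ι 2
    have : (ι A + ι B * s) ^ 8 = (((ι A + ι B * s) ^ 2) ^ 2) ^ 2 := by
      rw [← pow_mul, ← pow_mul]
    rw [this, sq_expand s _ _ hs2, sq_expand s _ _ hs2, sq_expand s _ _ hs2]
    simp only [P8, Q8, map_add, map_mul, map_pow, h2]
  rw [e3] at e2
  have e4 : ι ((P8 A B - 1) ^ 2) = ι (2 * (Q8 A B) ^ 2) := by
    have h2 : ι 2 = 2 := map_ofNat ι 2
    rw [map_pow, map_sub, map_one, map_mul, map_pow, h2]
    linear_combination (ι (P8 A B) - 1 - ι (Q8 A B) * s) * e2 + (ι (Q8 A B)) ^ 2 * hs2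
  have e5 := decide5 A B (ι.injective e4)
  rw [hA, hB, ← Int.cast_mul, ZMod.intCast_zmod_eq_zero_iff_dvd] at e5
  exact_mod_cast e5

end

end Pool.Agent.Lib.MP_748296_nt.H21
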