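import Mathlib

/-! # Uniqueness of `4p = α x² + β y²` with `α β = 75` up to signs (helper21) -/

namespace Pool.Agent.Lib.MP_748296_nt.H21

theorem rep_unique (p : ℕ) (hp : p.Prime) (α β : ℤ) (hαβ : α * β = 75) (hα : 0 < α)
    (hpα : ¬ (p : ℤ) ∣ α) (x y s t : ℤ)
    (h1 : 4 * (p : ℤ) = α * x ^ 2 + β * y ^ 2) (h2 : 4 * (p : ℤ) = α * s ^ 2 + β * t ^ 2) :
    x = s ∨ x = - s := by
  have hp0 : (0 : ℤ) < p := by exact_mod_cast hp.pos
  have hpp : Prime (p : ℤ) := Nat.prime_iff_prime_int.mp hp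
  have key : (4 * (p : ℤ)) * (t ^ 2 - y ^ 2) = α * ((x * t - y * s) * (x * t + y * s)) := by
    have : 4 * (p : ℤ) * (t ^ 2 - y ^ 2) = (4 * (p : ℤ)) * t ^ 2 - (4 * (p : ℤ)) * y ^ 2 := by ring
    rw [this]
    nth_rewrite 1 [h1]
    rw [h2]
    ring
  have hdvd : (p : ℤ) ∣ α * ((x * t - y * s) * (x * t + y * s)) := by
    rw [← key]; exact ⟨4 * (t ^ 2 - y ^ 2), by ring⟩
  have hdvd2 : (p : ℤ) ∣ (x * t - y * s) * (x * t + y * s) := by
    rcases hpp.dvd_or_dvd hdvd with h | h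
    · exact absurd h hpα
    · exact h
  have e1 : 16 * (p : ℤ) ^ 2 = (α * x * s + β * y * t) ^ 2 + 75 * (x * t - y * s) ^ 2 := by
    have : 16 * (p : ℤ) ^ 2 = (4 * (p : ℤ)) * (4 * (p : ℤ)) := by ring
    rw [this]
    nth_rewrite 1 [h1]
    rw [h2, ← hαβ]
    ring
  have e2 : 16 * (p : ℤ) ^ 2 = (α * x * s - β * y * t) ^ 2 + 75 * (x * t + y * s) ^ 2 := by
    have : 16 * (p : ℤ) ^ 2 = (4 * (p : ℤ)) * (4 * (p : ℤ)) := by ring
    rw [this]
    nth_rewrite 1 [h1]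
    rw [h2, ← hαβ]
    ring
  have small : ∀ z : ℤ, (p : ℤ) ∣ z → 75 * z ^ 2 ≤ 16 * (p : ℤ) ^ 2 → z = 0 := by
    intro z hz hle
    obtain ⟨c, rfl⟩ := hz
    by_contra hne
    have hc : c ≠ 0 := fun h => hne (by rw [h, mul_zero])
    have hc1 : 1 ≤ c ^ 2 := by
      have := pow_pos (abs_pos.mpr hc) 2
      rw [sq_abs] at this
      linarith
    nlinarith [mul_pos hp0 hp0]
  have hz : (x * t - y * s) * (x * t + y * s) = 0 := by
    rcases hpp.dvd_or_dvd hdvd2 with h | h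
    · rw [small _ h (by rw [e1]; nlinarith [sq_nonneg (α * x * s + β * y * t)]), zero_mul]
    · rw [small _ h (by rw [e2]; nlinarith [sq_nonneg (α * x * s - β * y * t)]), mul_zero]
  rw [hz, mul_zero] at key
  have hty : t ^ 2 = y ^ 2 := by
    rcases mul_eq_zero.mp key with h | h
    · exfalso; linarith
    · linarith
  have hxs : x ^ 2 = s ^ 2 := by
    have : α * x ^ 2 = α * s ^ 2 := by rw [hty] at h2; linarith
    exact mul_left_cancel₀ hα.ne' this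
  rcases sq_eq_sq_iff_eq_or_eq_neg.mp hxs with h | h
  · exact Or.inl h
  · exact Or.inr h

end Pool.Agent.Lib.MP_748296_nt.H21
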