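import Mathlib
import Pool.Agent.Lib.MP_748296_nt.Interfaces
import Pool.Agent.Lib.MP_748296_nt.H21.Five
import Pool.Agent.Lib.MP_748296_nt.H21.Rep

/-! # Module J (helper21) -/

namespace Pool.Agent.Lib.MP_748296_nt.H21

open Finset

section
variable (p n : ℕ) [hp : Fact p.Prime] (hn : p = 3 * n + 1)
variable {g : (ZMod p)ˣ} (hg : ∀ x, x ∈ Subgroup.zpowers g)

/-- the Teichmueller cubic character -/
noncomputable def chiT (h2n : 0 < 2 * n) : MulChar (ZMod p) (ZMod (p ^ 2)) where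
  toFun x := (T p x) ^ (2 * n)
  map_one' := by rw [T_one, one_pow]
  map_mul' x y := by rw [T_mul, mul_pow]
  map_nonunit' x hx := by
    have : x = 0 := by
      by_contra hne
      exact hx (isUnit_iff_ne_zero.mpr hne)
    show (T p x) ^ (2 * n) = 0
    rw [this, T_zero, zero_pow h2n.ne']

include hn in
lemma wT (h2n : 0 < 2 * n) (hg' : ∀ x, x ∈ Subgroup.zpowers g) :
    ((T p (g : ZMod p)) ^ (2 * n)) ^ 2 + (T p (g : ZMod p)) ^ (2 * n) + 1 = 0 := by
  set w := (T p (g : ZMod p)) ^ (2 * n) with hw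
  have hw3 : w ^ 3 = 1 := by
    have e : 2 * n * 3 = (p - 1) * 2 := by omega
    rw [hw, ← pow_mul, e, pow_mul, T_pow_card_sub_one p g.ne_zero, one_pow]
  have hu : IsUnit (w - 1) := by
    apply isUnit_of_red
    rw [map_sub, hw, map_pow, red_T, map_one, sub_ne_zero]
    intro h
    have h1 : g ^ (2 * n) = 1 := by
      ext1
      push_cast
      exact h
    have h2 : orderOf g = p - 1 := by
      rw [orderOf_eq_card_of_forall_mem_zpowers hg', Nat.card_eq_fintype_card,
        ZMod.card_units_eq_totient, Nat.totient_prime hp.out]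
    have h3 := orderOf_dvd_of_pow_eq_one h1
    rw [h2] at h3
    have := Nat.le_of_dvd h2n h3
    omega
  have h0 : (w - 1) * (w ^ 2 + w + 1) = 0 := by linear_combination hw3
  exact hu.mul_right_eq_zero.mp h0

lemma chi_eq_chiT (h2n : 0 < 2 * n) :
    chi p n hn hg ((T p (g : ZMod p)) ^ (2 * n)) (wT p n hn h2n hg) = chiT p n h2n := by
  rw [MulChar.eq_iff hg, chi_g]
  rfl

lemma ev_J0 (h2n : 0 < 2 * n) (hp2 : p ≠ 2) :
    ev ((T p (g : ZMod p)) ^ (2 * n)) (wT p n hn h2n hg) (J0 p n hn hg) =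
      - (Nat.choose (2 * n) n : ZMod (p ^ 2)) := by
  rw [← jac_chi, chi_eq_chiT p n hn hg h2n, ← jac_mod p n hn hp2]
  rfl

lemma cube_roots {c : E} (hc : c ^ 3 = 1) : c = 1 ∨ c = om ∨ c = om ^ 2 := by
  have h : (c - 1) * ((c - om) * (c - om ^ 2)) = 0 := by
    have h1 := om_sq
    have h2 := om_cube
    linear_combination hc - (c ^ 2 - c) * h1 + (c - 1) * h2
  rcases mul_eq_zero.mp h with h | h
  · exact Or.inl (sub_eq_zero.mp h)
  · rcases mul_eq_zero.mp h with h | h
    · exact Or.inr (Or.inl (sub_eq_zero.mp h))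
    · exact Or.inr (Or.inr (sub_eq_zero.mp h))

lemma five_ne (h5 : p ≠ 5) : (5 : ZMod p) ≠ 0 := by
  intro h
  have : ((5 : ℕ) : ZMod p) = 0 := by exact_mod_cast h
  rw [ZMod.natCast_eq_zero_iff] at this
  exact h5 ((Nat.prime_dvd_prime_iff_eq hp.out (by norm_num)).mp this)

lemma chi0_5_cube (h5 : p ≠ 5) : (chi0 p n hn hg 5) ^ 3 = 1 := by
  have : (5 : ZMod p) = ((Units.mk0 5 (five_ne p h5) : (ZMod p)ˣ) : ZMod p) := rfl
  rw [this, ← MulChar.pow_apply_coe, chi0_cube, MulChar.one_apply_coe]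

lemma nm_pi5 (h5 : p ≠ 5) : nm (pi5 p n hn hg) = p := by
  rw [pi5, nm_mul, J0_norm]
  have h1 : nm (chi0 p n hn hg 5) = 1 := by
    rcases cube_roots (chi0_5_cube p n hn hg h5) with h | h | h <;> rw [h]
    · simp [nm, QuadraticAlgebra.re_one, QuadraticAlgebra.im_one]
    · simp [nm, om]
    · simp [nm, om, sq]
  rw [h1, mul_one]

lemma pi5_mod3 (h5 : p ≠ 5) :
    (3 : ℤ) ∣ 2 * (pi5 p n hn hg).re - (pi5 p n hn hg).im - 1 := by
  obtain ⟨⟨a, ha⟩, ⟨b, hb⟩⟩ := J0_mod3 p n hn hg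
  rw [pi5]
  rcases cube_roots (chi0_5_cube p n hn hg h5) with h | h | h <;> rw [h]
  · rw [mul_one]
    exact ⟨2 * a - b - 1, by linear_combination 2 * ha - hb⟩
  · simp only [QuadraticAlgebra.re_mul, QuadraticAlgebra.im_mul, om]
    exact ⟨-a - b, by linear_combination -ha - hb⟩
  · simp only [sq, QuadraticAlgebra.re_mul, QuadraticAlgebra.im_mul, om]
    exact ⟨2 * b - a, by linear_combination 2 * hb - ha⟩

end

theorem modJ : Pool.Agent.Lib.MP_748296_nt.JStatement := by
  intro p n hpp h5lt hn u hu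
  haveI hp : Fact p.Prime := ⟨hpp⟩
  have hp2 : p ≠ 2 := by omega
  have hp3 : p ≠ 3 := by omega
  have hp5 : p ≠ 5 := by omega
  have hnp := n_pos p n hn
  have h2n : 0 < 2 * n := by omega
  obtain ⟨g, hg⟩ := IsCyclic.exists_generator (α := (ZMod p)ˣ)
  set w : ZMod (p ^ 2) := (T p (g : ZMod p)) ^ (2 * n) with hwdef
  have hw : w ^ 2 + w + 1 = 0 := wT p n hn h2n hg
  have hJ : ev w hw (J0 p n hn hg) = - (Nat.choose (2 * n) n : ZMod (p ^ 2)) :=
    ev_J0 p n hn hg h2n hp2
  have hq := psq p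
  -- `χ(5)`
  have hc5 : ev w hw (chi0 p n hn hg 5) = (5 : ZMod (p ^ 2)) ^ (p * (2 * n)) := by
    have h1 : chi p n hn hg w hw 5 = chiT p n h2n 5 := by
      rw [← chi_eq_chiT p n hn hg h2n]
    rw [← chi_apply, h1]
    show (T p 5) ^ (2 * n) = _
    have h2 : (5 : ZMod (p ^ 2)) ^ p = T p 5 := T_of_red p (map_ofNat _ 5)
    rw [← h2, ← pow_mul]
  have hkey : (5 : ZMod (p ^ 2)) ^ (p * (2 * n)) * (3 * 5 ^ n) = 2 + 5 ^ (p - 1) := by
    have hF : (p : ZMod (p ^ 2)) ∣ 5 ^ (p - 1) - 1 := by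
      apply dvd_of_red
      rw [map_sub, map_pow, map_one, map_ofNat, ZMod.pow_card_sub_one_eq_one (five_ne p hp5), sub_self]
    obtain ⟨q, hq'⟩ := hF
    have hF' : (5 : ZMod (p ^ 2)) ^ (p - 1) = 1 + (p : ZMod (p ^ 2)) * q := by linear_combination hq'
    have e1 : (5 : ZMod (p ^ 2)) ^ (p * (2 * n)) * 5 ^ n = (5 ^ (p - 1)) ^ (2 * n + 1) := by
      rw [← pow_add, ← pow_mul]
      congr 1
      have : p - 1 = 3 * n := by omega
      rw [this]
      nth_rewrite 1 [hn]
      ring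
    have e2 : (5 : ZMod (p ^ 2)) ^ (p * (2 * n)) * (3 * 5 ^ n) = 3 * ((5 : ZMod (p ^ 2)) ^ (p * (2 * n)) * 5 ^ n) := by ring
    rw [e2, e1, hF', add_p_pow, one_pow, one_pow]
    have hpn : (p : ZMod (p ^ 2)) = 3 * (n : ZMod (p ^ 2)) + 1 := by
      have := congrArg (Nat.cast : ℕ → ZMod (p ^ 2)) hn
      push_cast at this
      exact this
    push_cast
    linear_combination 2 * q * hq - 2 * (p : ZMod (p ^ 2)) * q * hpn
  have hunit : IsUnit (3 * (5 : ZMod (p ^ 2)) ^ n) := by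
    apply isUnit_of_red
    rw [map_mul, map_pow, map_ofNat, map_ofNat]
    apply mul_ne_zero
    · have := cast_ne_zero p 3 (by omega) (by omega)
      exact_mod_cast this
    · exact pow_ne_zero _ (five_ne p hp5)
  have hu1 : u = (Nat.choose (2 * n) n : ZMod (p ^ 2)) * (5 : ZMod (p ^ 2)) ^ (p * (2 * n)) := by
    apply hunit.mul_right_cancel
    rw [hu, mul_assoc, hkey]
  set x := pi5 p n hn hg with hx
  have hu2 : u = - ((x.re : ZMod (p ^ 2)) + (x.im : ZMod (p ^ 2)) * w) := by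
    rw [← ev_apply w hw, hx, pi5, map_mul, hJ, hc5, hu1]
    ring
  have hnm : nm x = p := nm_pi5 p n hn hg hp5
  have hmod3 : (3 : ℤ) ∣ 2 * x.re - x.im - 1 := pi5_mod3 p n hn hg hp5
  have hfive : (5 : ℤ) ∣ (2 * x.re - x.im) * x.im := five p n hn hg hp5
  set t : ℤ := 2 * x.re - x.im with ht
  have h4p : 4 * (p : ℤ) = t ^ 2 + 3 * x.im ^ 2 := by
    rw [← hnm, nm, ht]; ring
  have hw3 := w_cube w hw
  -- the quadratic equation
  have hquad : u * (((-t : ℤ) : ZMod (p ^ 2)) - u) = p := by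
    have h1 : ((nm x : ℤ) : ZMod (p ^ 2)) = (p : ZMod (p ^ 2)) := by rw [hnm]; simp
    rw [nm] at h1
    push_cast at h1
    rw [hu2, ht, ← h1]
    push_cast
    linear_combination (-(x.im : ZMod (p ^ 2)) ^ 2) * hw
  have huunit : IsUnit u := by
    apply isUnit_of_red
    intro h0
    have h1 := congrArg (red p) hu
    rw [map_mul, h0, zero_mul, map_mul, map_natCast, map_add, map_pow, map_ofNat, map_ofNat,
      ZMod.pow_card_sub_one_eq_one (five_ne p hp5)] at h1
    rcases mul_eq_zero.mp h1.symm with h | h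
    · rw [ZMod.natCast_eq_zero_iff] at h
      have h3 : 2 * n < p := by omega
      have h4 : Nat.choose (2 * n) n ∣ (2 * n).factorial :=
        ⟨n.factorial * (2 * n - n).factorial, by
          rw [← mul_assoc]; exact (Nat.choose_mul_factorial_mul_factorial (by omega)).symm⟩
      have h5 := (hpp.dvd_factorial).mp (h.trans h4)
      omega
    · have := cast_ne_zero p 3 (by omega) (by omega)
      apply this
      push_cast
      linear_combination h
  have hsqz : (((-t : ℤ) : ZMod (p ^ 2)) - u) ^ 2 = 0 := by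
    have h1 : (u ^ 2) * (((-t : ℤ) : ZMod (p ^ 2)) - u) ^ 2 = 0 := by
      rw [← mul_pow, hquad]; exact hq
    exact (huunit.pow 2).mul_right_eq_zero.mp h1
  have hfin : ((-t : ℤ) : ZMod (p ^ 2)) * u = ((-t : ℤ) : ZMod (p ^ 2)) ^ 2 - (p : ZMod (p ^ 2)) := by
    linear_combination (-1 : ZMod (p ^ 2)) * hquad - hsqz
  have h5p : ¬ (5 : ℤ) ∣ p := by
    intro h
    have : 5 ∣ p := by exact_mod_cast h
    exact hp5 ((Nat.prime_dvd_prime_iff_eq (by norm_num) hpp).mp this).symm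
  have h5prime : Prime (5 : ℤ) := by norm_num
  refine ⟨fun hcase => ?_, fun hcase => ?_⟩
  · -- `5 ∣ im`
    have h5b : (5 : ℤ) ∣ x.im := by
      rcases h5prime.dvd_or_dvd hfive with h | h
      · exfalso
        obtain ⟨c, hc⟩ := h
        rw [hc] at h4p
        have hb : x.im % 5 = 0 ∨ x.im % 5 = 1 ∨ x.im % 5 = 2 ∨ x.im % 5 = 3 ∨ x.im % 5 = 4 := by omega
        have hmm : (4 * (p : ℤ)) % 5 = (3 * (x.im % 5) ^ 2) % 5 := by
          have : (4 * (p : ℤ)) % 5 = (3 * x.im ^ 2) % 5 := by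
            rw [h4p]
            have : (5 * c) ^ 2 + 3 * x.im ^ 2 = 3 * x.im ^ 2 + 5 * (5 * c ^ 2) := by ring
            rw [this, Int.add_mul_emod_self_left]
          rw [this]
          exact (Int.ModEq.pow 2 (Int.mod_modEq x.im 5).symm).mul_left 3
        rcases hb with hb | hb | hb | hb | hb <;> rw [hb] at hmm <;> norm_num at hmm <;>
          rcases hcase with hc1 | hc1 <;> omega
      · exact h
    obtain ⟨c, hc⟩ := h5b
    have hrep : 4 * (p : ℤ) = (-t) ^ 2 + 75 * c ^ 2 := by rw [h4p, hc]; ring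
    have htm : (-t) % 3 = 2 := by omega
    refine ⟨⟨-t, c, hrep, htm⟩, ?_⟩
    intro X Y hXY hX3
    have hXt := rep_unique p hpp 1 75 (by norm_num) (by norm_num)
      (by
        intro h
        have := Int.le_of_dvd (by norm_num) h
        have := hpp.one_lt
        omega) X Y (-t) c (by rw [hXY]; ring) (by rw [hrep]; ring)
    have hXe : X = -t := by
      rcases hXt with h | h
      · exact h
      · exfalso; omega
    rw [hXe]
    exact hfin
  · have h5t : (5 : ℤ) ∣ t := by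
      rcases h5prime.dvd_or_dvd hfive with h | h
      · exact h
      · exfalso
        obtain ⟨c, hc⟩ := h
        rw [hc] at h4p
        have hb : t % 5 = 0 ∨ t % 5 = 1 ∨ t % 5 = 2 ∨ t % 5 = 3 ∨ t % 5 = 4 := by omega
        have hmm : (4 * (p : ℤ)) % 5 = ((t % 5) ^ 2) % 5 := by
          have : (4 * (p : ℤ)) % 5 = (t ^ 2) % 5 := by
            rw [h4p]
            have : t ^ 2 + 3 * (5 * c) ^ 2 = t ^ 2 + 5 * (15 * c ^ 2) := by ring
            rw [this, Int.add_mul_emod_self_left]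
          rw [this]
          exact Int.ModEq.pow 2 (Int.mod_modEq t 5).symm
        rcases hb with hb | hb | hb | hb | hb <;> rw [hb] at hmm <;> norm_num at hmm <;>
          rcases hcase with hc1 | hc1 <;> omega
    obtain ⟨c, hc⟩ := h5t
    have hrep : 4 * (p : ℤ) = 25 * (-c) ^ 2 + 3 * x.im ^ 2 := by rw [h4p, hc]; ring
    have htm : (-c) % 3 = 1 := by omega
    refine ⟨⟨-c, x.im, hrep, htm⟩, ?_⟩
    intro X Y hXY hX3
    have hXt := rep_unique p hpp 25 3 (by norm_num) (by norm_num)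
      (by
        intro h
        have h1 : p ∣ 5 ^ 2 := by
          have : (p : ℤ) ∣ ((5 ^ 2 : ℕ) : ℤ) := by exact_mod_cast h
          exact_mod_cast this
        have h2 := hpp.dvd_of_dvd_pow h1
        exact hp5 ((Nat.prime_dvd_prime_iff_eq hpp (by norm_num)).mp h2)) X Y (-c) x.im hXY hrep
    have hXe : X = -c := by
      rcases hXt with h | h
      · exact h
      · exfalso; omega
    have e5 : (5 * X : ℤ) = -t := by rw [hXe, hc]; ring
    rw [e5]
    exact hfin

end Pool.Agent.Lib.MP_748296_nt.H21
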